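import Pool.Agent.H41.HKB.Targets

/-!
# Row REM of the board hkb (helper41, MP_bd932b_co)

The removal lemma for cliques.
-/

set_option autoImplicit false

namespace Pool.Agent.H1.HKB

open Finset Pool.Agent.H41.HKB Pool.Agent.H42.BD
open scoped Classical

theorem pf_REM (hCNT : T_CNT) (hRED : T_RED) : T_REM := by
  intro q δ hδ
  obtain ⟨ε, hε, k₀, hk₀, hcnt⟩ := hCNT q (δ / 16) (by positivity)
  obtain ⟨B, hB, hred⟩ := hRED δ ε hδ hε
  have hBR : (0 : ℝ) < B := by exact_mod_cast hB
  have hBq : (0 : ℝ) < (B : ℝ) ^ q := by positivity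
  refine ⟨min k₀ 1 / (B : ℝ) ^ q, by positivity, ?_⟩
  intro V _ G hG
  set N : ℝ := (Fintype.card V : ℝ) with hN
  have hN0 : 0 ≤ N := Nat.cast_nonneg _
  rcases le_or_gt B (Fintype.card V) with hle | hlt
  · obtain ⟨G', P, hG', hoe, hP, hadj⟩ := hred V G hle
    obtain ⟨f, hf⟩ := hG G' hG' hoe
    have h1 := hcnt V G (fun i => P (f i)) (fun i j hij => hadj _ _ (hf i j hij))
    have h2 : (((univ : Finset (Fin q → V)).filter
        (fun g => (∀ i, g i ∈ P (f i)) ∧ ∀ i j, i < j → G.Adj (g i) (g j))).card : ℝ) ≤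
        (((univ : Finset (Fin q → V)).filter
        (fun g => ∀ i j, i < j → G.Adj (g i) (g j))).card : ℝ) := by
      have h3 : ((univ : Finset (Fin q → V)).filter
          (fun g => (∀ i, g i ∈ P (f i)) ∧ ∀ i j, i < j → G.Adj (g i) (g j))) ⊆
          ((univ : Finset (Fin q → V)).filter (fun g => ∀ i j, i < j → G.Adj (g i) (g j))) := by
        intro g hg
        rw [Finset.mem_filter] at hg ⊢
        exact ⟨hg.1, hg.2.2⟩
      exact_mod_cast Finset.card_le_card h3
    refine le_trans ?_ (h1.trans h2)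
    have h4 : (N / B) ^ q ≤ ∏ i, ((P (f i)).card : ℝ) := by
      calc (N / B) ^ q = ∏ _i : Fin q, N / B := by
            rw [Finset.prod_const, Finset.card_univ, Fintype.card_fin]
        _ ≤ ∏ i, ((P (f i)).card : ℝ) := by
            refine Finset.prod_le_prod (fun i _ => by positivity) fun i _ => ?_
            rw [div_le_iff₀ hBR, mul_comm, hN]
            exact_mod_cast (hP (f i)).2
    calc min k₀ 1 / (B : ℝ) ^ q * N ^ q = min k₀ 1 * (N / B) ^ q := by
          rw [div_pow]
          ring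
      _ ≤ k₀ * ∏ i, ((P (f i)).card : ℝ) :=
          mul_le_mul (min_le_left _ _) h4 (by positivity) hk₀.le
  · obtain ⟨f, hf⟩ := hG G le_rfl (by
      rw [sub_self]
      positivity)
    have h1 : 1 ≤ (((univ : Finset (Fin q → V)).filter
        (fun g => ∀ i j, i < j → G.Adj (g i) (g j))).card : ℝ) := by
      have h2 : 0 < ((univ : Finset (Fin q → V)).filter
          (fun g => ∀ i j, i < j → G.Adj (g i) (g j))).card :=
        Finset.card_pos.mpr ⟨f, Finset.mem_filter.mpr ⟨Finset.mem_univ _, hf⟩⟩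
      exact_mod_cast h2
    refine le_trans ?_ h1
    have h3 : N ≤ B := by
      rw [hN]
      exact_mod_cast hlt.le
    have h4 : N ^ q ≤ (B : ℝ) ^ q := pow_le_pow_left₀ hN0 h3 q
    rw [div_mul_eq_mul_div, div_le_one hBq]
    calc min k₀ 1 * N ^ q ≤ 1 * N ^ q := by
          apply mul_le_mul_of_nonneg_right (min_le_right _ _) (by positivity)
      _ ≤ (B : ℝ) ^ q := by rw [one_mul]; exact h4

end Pool.Agent.H1.HKB
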